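import Mathlib
import Pool.Agent.Helper376.Lac.Coarse

/-!
Lacunary limits with an arbitrary growth function.
-/

set_option autoImplicit false

namespace Pool.Agent.Y36.LG

open Pool.Agent.Helper376.DL (Ball ball_succ ball_mono ball_add ball_mono_succ)
open Pool.Agent.Helper376.Lac (Stage stage0 ball_inv SF Win Win_mono exists_next fa ft lampF hF
  SF_one SF_inv SF_finite hF_fa hF_ft L al sg al_zconj WG SG WinZ_conj WinZ ball_decomp
  short_window ball_finite eta_zpow)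

variable {F : ℕ → ℕ → ℕ}

/-- The growth function with a free parameter. -/
def big (F : ℕ → ℕ → ℕ) (i r : ℕ) : ℕ := i + F i r

/-- The next stage. -/
noncomputable def nxt (s : Stage) (R : ℕ) : Stage := (exists_next s R).choose

theorem nxt_spec (s : Stage) (R : ℕ) : R ≤ (nxt s R).K ∧ s.K ≤ (nxt s R).K ∧
    (∀ w ∈ Win (nxt s R).K, s.pi w = 1 → (nxt s R).pi w = 1) ∧
    (∀ w ∈ Ball SF R, ((nxt s R).pi w = 1 ↔ s.pi w = 1)) := (exists_next s R).choose_spec

/-- The sequence of stages with radii. -/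
noncomputable def sq (F : ℕ → ℕ → ℕ) : ℕ → Stage × ℕ
  | 0 => (stage0, (big F) 0 stage0.rad)
  | (i + 1) => (nxt ((sq F) i).1 ((sq F) i).2,
      max ((sq F) i).2 ((big F) (i + 1) (nxt ((sq F) i).1 ((sq F) i).2).rad))

/-- The stages. -/
noncomputable def St (F : ℕ → ℕ → ℕ) (i : ℕ) : Stage := ((sq F) i).1

/-- The radii. -/
noncomputable def Rd (F : ℕ → ℕ → ℕ) (i : ℕ) : ℕ := ((sq F) i).2

theorem St_succ (i : ℕ) : (St F) (i + 1) = nxt ((St F) i) ((Rd F) i) := rfl

theorem Rd_succ (i : ℕ) : (Rd F) (i + 1) = max ((Rd F) i) ((big F) (i + 1) ((St F) (i + 1)).rad) := rfl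

theorem Rd_big (i : ℕ) : (big F) i ((St F) i).rad ≤ (Rd F) i := by
  cases i with
  | zero => exact le_rfl
  | succ i => rw [Rd_succ]; exact le_max_right _ _

theorem Rd_mono {i j : ℕ} (h : i ≤ j) : (Rd F) i ≤ (Rd F) j := by
  induction h with
  | refl => exact le_rfl
  | step _ ih => rw [Nat.succ_eq_add_one, Rd_succ]; exact le_trans ih (le_max_left _ _)

theorem le_Rd (i : ℕ) : i ≤ (Rd F) i := by
  refine le_trans ?_ (Rd_big i)
  unfold big
  omega

theorem K_mono {i j : ℕ} (h : i ≤ j) : ((St F) i).K ≤ ((St F) j).K := by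
  induction h with
  | refl => exact le_rfl
  | step _ ih =>
    rw [Nat.succ_eq_add_one, St_succ]
    exact le_trans ih (nxt_spec _ _).2.1

theorem le_K (i : ℕ) : i ≤ ((St F) (i + 1)).K := by
  rw [St_succ]
  exact le_trans (le_Rd i) (nxt_spec _ _).1

theorem short_iff {i j : ℕ} (h : i ≤ j) {w : FreeGroup (Fin 2)} (hw : w ∈ Ball SF ((Rd F) i)) :
    ((St F) j).pi w = 1 ↔ ((St F) i).pi w = 1 := by
  induction h with
  | refl => exact Iff.rfl
  | @step j hij ih =>
    rw [Nat.succ_eq_add_one, St_succ]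
    exact ((nxt_spec ((St F) j) ((Rd F) j)).2.2.2 w (ball_mono SF_one (Rd_mono hij) hw)).trans ih

theorem win_imp {i j : ℕ} (h : i ≤ j) {w : FreeGroup (Fin 2)} (hw : w ∈ Win ((St F) i).K)
    (h1 : ((St F) i).pi w = 1) : ((St F) j).pi w = 1 := by
  induction h with
  | refl => exact h1
  | @step j hij ih =>
    rw [Nat.succ_eq_add_one, St_succ]
    exact (nxt_spec ((St F) j) ((Rd F) j)).2.2.1 w
      (Win_mono (le_trans (K_mono hij) (nxt_spec ((St F) j) ((Rd F) j)).2.1) hw) ih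

/-- The limit kernel. -/
def Kinf (F : ℕ → ℕ → ℕ) : Subgroup (FreeGroup (Fin 2)) where
  carrier := {w | ∃ i₀, ∀ i, i₀ ≤ i → ((St F) i).pi w = 1}
  one_mem' := ⟨0, fun i _ => map_one _⟩
  mul_mem' := by
    rintro u v ⟨i, hi⟩ ⟨j, hj⟩
    refine ⟨max i j, fun k hk => ?_⟩
    rw [map_mul, hi k (le_trans (le_max_left _ _) hk), hj k (le_trans (le_max_right _ _) hk),
      one_mul]
  inv_mem' := by
    rintro u ⟨i, hi⟩
    exact ⟨i, fun k hk => by rw [map_inv, hi k hk, inv_one]⟩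

instance : (Kinf F).Normal where
  conj_mem := by
    rintro u ⟨i, hi⟩ g
    exact ⟨i, fun k hk => by rw [map_mul, map_mul, hi k hk, map_inv, mul_one, mul_inv_cancel]⟩

theorem mem_Kinf_short {i : ℕ} {w : FreeGroup (Fin 2)} (hw : w ∈ Ball SF ((Rd F) i)) :
    w ∈ (Kinf F) ↔ ((St F) i).pi w = 1 := by
  constructor
  · rintro ⟨i₀, hi₀⟩
    have := hi₀ (max i i₀) (le_max_right _ _)
    exact (short_iff (le_max_left i i₀) hw).1 this
  · intro h
    exact ⟨i, fun k hk => (short_iff hk hw).2 h⟩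

theorem mem_Kinf_win {i : ℕ} {w : FreeGroup (Fin 2)} (hw : w ∈ Win ((St F) i).K)
    (h : ((St F) i).pi w = 1) : w ∈ (Kinf F) := ⟨i, fun k hk => win_imp hk hw h⟩

theorem lampF_Kinf {w : FreeGroup (Fin 2)} (h : w ∈ (Kinf F)) : lampF w = 1 := by
  obtain ⟨i, hi⟩ := h
  exact ((St F) i).lampF_of_pi (hi i le_rfl)

theorem hF_Kinf {w : FreeGroup (Fin 2)} (h : w ∈ (Kinf F)) : hF w = 1 := by
  obtain ⟨i, hi⟩ := h
  exact ((St F) i).hF_of_pi (hi i le_rfl)

/-- The limit group. -/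
abbrev GG (F : ℕ → ℕ → ℕ) : Type := FreeGroup (Fin 2) ⧸ (Kinf F)

/-- The projection. -/
def q (F : ℕ → ℕ → ℕ) : FreeGroup (Fin 2) →* (GG F) := QuotientGroup.mk' (Kinf F)

theorem q_surj : Function.Surjective (q F) := QuotientGroup.mk'_surjective (Kinf F)

theorem q_eq_one {w : FreeGroup (Fin 2)} : (q F) w = 1 ↔ w ∈ (Kinf F) := QuotientGroup.eq_one_iff w

/-- Generators of the limit group. -/
def ga (F : ℕ → ℕ → ℕ) : (GG F) := (q F) fa
/-- Generators of the limit group. -/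
def gt (F : ℕ → ℕ → ℕ) : (GG F) := (q F) ft

theorem gen : Subgroup.closure ({(ga F), (gt F)} : Set (GG F)) = ⊤ := by
  have h1 : Subgroup.closure (Set.range (FreeGroup.of : Fin 2 → FreeGroup (Fin 2))) = ⊤ :=
    FreeGroup.closure_range_of _
  have h2 : Subgroup.map (q F) (Subgroup.closure (Set.range
      (FreeGroup.of : Fin 2 → FreeGroup (Fin 2)))) = ⊤ := by
    rw [h1, ← MonoidHom.range_eq_map, MonoidHom.range_eq_top]
    exact q_surj
  rw [MonoidHom.map_closure] at h2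
  rw [eq_top_iff, ← h2]
  apply Subgroup.closure_mono
  rintro _ ⟨_, ⟨i, rfl⟩, rfl⟩
  fin_cases i
  · left; rfl
  · right; rfl

/-- The height on the limit group. -/
def eta (F : ℕ → ℕ → ℕ) : (GG F) →* Multiplicative ℤ := QuotientGroup.lift (Kinf F) hF (fun _ hw => hF_Kinf hw)

theorem eta_q (w : FreeGroup (Fin 2)) : (eta F) ((q F) w) = hF w := rfl

theorem eta_ga : (eta F) (ga F) = 1 := by
  change hF fa = 1
  exact hF_fa

theorem eta_gt : (eta F) (gt F) = Multiplicative.ofAdd 1 := by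
  change hF ft = _
  exact hF_ft

theorem lamp_inj (i j : ℤ) (h : (gt F) ^ i * (ga F) * ((gt F) ^ i)⁻¹ = (gt F) ^ j * (ga F) * ((gt F) ^ j)⁻¹) : i = j := by
  have h1 : (q F) ((ft ^ i * fa * (ft ^ i)⁻¹) * (ft ^ j * fa * (ft ^ j)⁻¹)⁻¹) = 1 := by
    rw [map_mul, map_inv, mul_inv_eq_one]
    simp only [map_mul, map_zpow, map_inv]
    exact h
  rw [q_eq_one] at h1
  have h2 := lampF_Kinf h1
  rw [map_mul, map_inv, mul_inv_eq_one] at h2
  simp only [map_mul, map_zpow, map_inv] at h2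
  have e1 : lampF fa = al := by simp [lampF, fa]
  have e2 : lampF ft = sg := by simp [lampF, ft]
  rw [e1, e2] at h2
  have h3 := congrArg (fun π : L => (π (i, 0)).2) h2
  simp only [al_zconj] at h3
  by_contra hne
  simp [hne] at h3

theorem win_finite (K : ℕ) : ((Win K).map (q F) : Set (GG F)).Finite := by
  obtain ⟨i, hi⟩ : ∃ i, K ≤ ((St F) i).K := ⟨K + 1, le_K K⟩
  have hKi : Win K ≤ Win ((St F) i).K := Win_mono hi
  -- every word of the window evaluates in the base group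
  have hev : ∀ w ∈ Win ((St F) i).K, ∃ v : ((St F) i).V, ((St F) i).pi w = HNNExtension.of v := by
    intro w hw
    unfold Win at hw
    induction hw using Subgroup.closure_induction with
    | mem y hy =>
      obtain ⟨j, hj, rfl⟩ := hy
      exact ⟨_, ((St F) i).pi_conj j hj⟩
    | one => exact ⟨1, by simp⟩
    | mul y z _ _ h1 h2 =>
      obtain ⟨u, hu⟩ := h1
      obtain ⟨v, hv⟩ := h2
      exact ⟨u * v, by rw [map_mul, hu, hv, map_mul]⟩
    | inv y _ h1 =>
      obtain ⟨u, hu⟩ := h1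
      exact ⟨u⁻¹, by rw [map_inv, hu, map_inv]⟩
  choose! f hf using hev
  -- the map from the base group
  have hinj : ∀ u ∈ Win ((St F) i).K, ∀ w ∈ Win ((St F) i).K, f u = f w → (q F) u = (q F) w := by
    intro u hu w hw h
    have h1 : ((St F) i).pi (u * w⁻¹) = 1 := by
      rw [map_mul, map_inv, hf u hu, hf w hw, h, mul_inv_cancel]
    have h2 := mem_Kinf_win (Subgroup.mul_mem _ hu (Subgroup.inv_mem _ hw)) h1
    rw [← q_eq_one, map_mul, map_inv, mul_inv_eq_one] at h2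
    exact h2
  classical
  let g : ((St F) i).V → (GG F) := fun v => if h : ∃ w ∈ Win ((St F) i).K, f w = v then (q F) h.choose else 1
  refine (Set.finite_range g).subset ?_
  rintro _ ⟨w, hw, rfl⟩
  have hw' := hKi hw
  refine ⟨f w, ?_⟩
  have hex : ∃ w' ∈ Win ((St F) i).K, f w' = f w := ⟨w, hw', rfl⟩
  simp only [g, dif_pos hex]
  exact hinj _ hex.choose_spec.1 _ hw' hex.choose_spec.2

theorem WG_finite (m : ℕ) : (WG (ga F) (gt F) m : Set (GG F)).Finite := by
  have h := win_finite (F := F) (2 * m)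
  refine (h.image (fun g => ((gt F) ^ m)⁻¹ * g * (gt F) ^ m)).subset ?_
  intro g hg
  have key : (gt F) ^ m * g * ((gt F) ^ m)⁻¹ ∈ (Win (2 * m)).map (q F) := by
    have hg' : g ∈ WG (ga F) (gt F) m := hg
    unfold WG at hg'
    induction hg' using Subgroup.closure_induction with
    | mem y hy =>
      obtain ⟨j, hj1, hj2, rfl⟩ := hy
      refine ⟨ft ^ m * (ft ^ j * fa * (ft ^ j)⁻¹) * (ft ^ m)⁻¹,
        WinZ_conj le_rfl (Subgroup.subset_closure ⟨j, hj1, hj2, rfl⟩), ?_⟩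
      simp only [map_mul, map_pow, map_zpow, map_inv]
      rfl
    | one => simpa using Subgroup.one_mem _
    | mul y z _ _ h1 h2 =>
      have e : (gt F) ^ m * (y * z) * ((gt F) ^ m)⁻¹ =
        ((gt F) ^ m * y * ((gt F) ^ m)⁻¹) * ((gt F) ^ m * z * ((gt F) ^ m)⁻¹) := by group
      rw [e]; exact Subgroup.mul_mem _ (h1 ‹_›) (h2 ‹_›)
    | inv y _ h1 =>
      have e : (gt F) ^ m * y⁻¹ * ((gt F) ^ m)⁻¹ = ((gt F) ^ m * y * ((gt F) ^ m)⁻¹)⁻¹ := by group
      rw [e]; exact Subgroup.inv_mem _ (h1 ‹_›)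
  exact ⟨_, key, by group⟩

end Pool.Agent.Y36.LG
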