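import Mathlib
import Pool.Agent.Y36.LG.Limit

/-!
Separation in the limit groups.
-/

set_option autoImplicit false

namespace Pool.Agent.Y36.LG

open Pool.Agent.Helper376.DL (Ball ball_succ ball_mono ball_add ball_mono_succ)
open Pool.Agent.Helper376.Lac (Stage stage0 ball_inv SF Win Win_mono exists_next fa ft lampF hF
  SF_one SF_inv SF_finite hF_fa hF_ft L al sg al_zconj WG SG WinZ_conj WinZ ball_decomp
  short_window ball_finite eta_zpow Joined ft_pow_ball ft_zpow_ball side InA side_mul_of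
  side_mul_t_of_not side_mul_t_inv_of_not side_t_pow side_t_neg_pow SG_one SG_finite SG_inv)
open Relation

variable {F : ℕ → ℕ → ℕ}

theorem SG_eq : SG (ga F) (gt F) = (q F) '' SF := by
  ext g
  simp only [SG, SF, Set.image_insert_eq, Set.image_singleton, map_one, map_inv, ga, gt]

theorem ball_q {k : ℕ} {g : (GG F)} : g ∈ Ball (SG (ga F) (gt F)) k ↔ ∃ w ∈ Ball SF k, (q F) w = g := by
  induction k generalizing g with
  | zero =>
    constructor
    · intro h
      have : g = 1 := h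
      subst this
      exact ⟨1, rfl, map_one (q F)⟩
    · rintro ⟨w, hw, rfl⟩
      have : w = 1 := hw
      subst this
      exact map_one (q F)
  | succ k ih =>
    constructor
    · rintro ⟨x, hx, y, hy, rfl⟩
      obtain ⟨w, hw, rfl⟩ := ih.1 hx
      rw [SG_eq] at hy
      obtain ⟨u, hu, rfl⟩ := hy
      exact ⟨w * u, ball_succ hw hu, map_mul (q F) w u⟩
    · rintro ⟨_, ⟨x, hx, y, hy, rfl⟩, rfl⟩
      refine ⟨(q F) x, ih.2 ⟨x, hx, rfl⟩, (q F) y, ?_, map_mul (q F) x y⟩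
      rw [SG_eq]; exact ⟨y, hy, rfl⟩

theorem step_side {i Rb : ℕ} (h1 : 2 * Rb + 1 ≤ (Rd F) i) (h2 : Rb + ((St F) i).rad ≤ (Rd F) i)
    {w w' : FreeGroup (Fin 2)} (hw : w ∈ Ball SF Rb) (hw' : w' ∈ Ball SF Rb)
    (hs : ((q F) w)⁻¹ * (q F) w' ∈ SG (ga F) (gt F)) (hn : (q F) w ∉ Ball (SG (ga F) (gt F)) ((St F) i).rad)
    (hn' : (q F) w' ∉ Ball (SG (ga F) (gt F)) ((St F) i).rad) : side (((St F) i).pi w) = side (((St F) i).pi w') := by
  have notA : ∀ w ∈ Ball SF Rb, (q F) w ∉ Ball (SG (ga F) (gt F)) ((St F) i).rad → ¬ InA (((St F) i).pi w) := by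
    rintro w hw hn ⟨y, hy, hpy⟩
    obtain ⟨u, hu, huy⟩ := ((St F) i).rad_spec y hy
    apply hn
    rw [ball_q]
    refine ⟨u, hu, ?_⟩
    have h3 : ((St F) i).pi (w * u⁻¹) = 1 := by rw [map_mul, map_inv, hpy, huy, mul_inv_cancel]
    have h4 : w * u⁻¹ ∈ Ball SF ((Rd F) i) := ball_mono SF_one h2 (ball_add hw (ball_inv hu))
    have h5 := (mem_Kinf_short h4).2 h3
    rw [← q_eq_one, map_mul, map_inv, mul_inv_eq_one] at h5
    exact h5.symm
  rw [SG_eq] at hs
  obtain ⟨u, hu, hqu⟩ := hs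
  have hk : (w * u)⁻¹ * w' ∈ (Kinf F) := by
    rw [← q_eq_one, map_mul, map_inv, map_mul, hqu]; group
  have hlen : (w * u)⁻¹ * w' ∈ Ball SF ((Rd F) i) := by
    refine ball_mono SF_one ?_ (ball_add (ball_inv (ball_succ hw hu)) hw')
    omega
  have hpi := (mem_Kinf_short hlen).1 hk
  rw [map_mul, map_inv, inv_mul_eq_one, map_mul] at hpi
  have nA := notA w hw hn
  have nA' := notA w' hw' hn'
  rw [← hpi] at nA' ⊢
  simp only [SF, Set.mem_insert_iff, Set.mem_singleton_iff] at hu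
  rcases hu with rfl | rfl | rfl | rfl | rfl
  · rw [map_one, mul_one]
  · rw [Stage.pi_fa, side_mul_of]
  · rw [map_inv, Stage.pi_fa, ← map_inv, side_mul_of]
  · rw [Stage.pi_ft] at nA' ⊢
    rw [side_mul_t_of_not nA']
  · rw [map_inv, Stage.pi_ft, side_mul_t_inv_of_not nA]

theorem pi_congr {i Rb : ℕ} (h1 : 2 * Rb + 1 ≤ (Rd F) i) {w w' : FreeGroup (Fin 2)}
    (hw : w ∈ Ball SF Rb) (hw' : w' ∈ Ball SF Rb) (h : (q F) w = (q F) w') :
    ((St F) i).pi w = ((St F) i).pi w' := by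
  have hk : w⁻¹ * w' ∈ (Kinf F) := by rw [← q_eq_one, map_mul, map_inv, h, inv_mul_cancel]
  have hlen : w⁻¹ * w' ∈ Ball SF ((Rd F) i) :=
    ball_mono SF_one (by omega) (ball_add (ball_inv hw) hw')
  have hpi := (mem_Kinf_short hlen).1 hk
  rw [map_mul, map_inv, inv_mul_eq_one] at hpi
  exact hpi

/-- Separation in the limit group. -/
theorem separation {i Rb J : ℕ} (hJ1 : 1 ≤ J) (hJ : J ≤ Rb) (h1 : 2 * Rb + 1 ≤ (Rd F) i)
    (h2 : Rb + ((St F) i).rad ≤ (Rd F) i) {X : Set (GG F)} (hX1 : ∀ g ∈ X, g ∈ Ball (SG (ga F) (gt F)) Rb)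
    (hX2 : ∀ g ∈ X, g ∉ Ball (SG (ga F) (gt F)) ((St F) i).rad) :
    ¬ Joined (SG (ga F) (gt F)) X ((gt F) ^ (J : ℤ)) ((gt F) ^ (-(J : ℤ))) := by
  intro hjoin
  have key : ∀ g, Joined (SG (ga F) (gt F)) X ((gt F) ^ (J : ℤ)) g → ∀ w ∈ Ball SF Rb, (q F) w = g →
      side (((St F) i).pi w) = 0 := by
    intro g hg
    induction hg with
    | refl =>
      intro w hw hqw
      have h3 : ft ^ (J : ℤ) ∈ Ball SF Rb :=
        ball_mono SF_one (by simpa using hJ) (ft_zpow_ball J)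
      have h4 := pi_congr h1 hw h3 (by rw [hqw, map_zpow]; rfl)
      rw [h4, map_zpow, Stage.pi_ft, side_t_pow]
    | @tail g g' _ hstep ih =>
      obtain ⟨hg, hg', hs⟩ := hstep
      intro w' hw' hqw'
      obtain ⟨w, hw, hqw⟩ := ball_q.1 (hX1 g hg)
      have h3 := ih w hw hqw
      rw [← h3]
      refine (step_side h1 h2 hw hw' ?_ ?_ ?_).symm
      · rw [hqw, hqw']; exact hs
      · rw [hqw]; exact hX2 g hg
      · rw [hqw']; exact hX2 g' hg'
  have h3 : ft ^ (-(J : ℤ)) ∈ Ball SF Rb :=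
    ball_mono SF_one (by simpa using hJ) (ft_zpow_ball (-(J : ℤ)))
  have h4 := key _ hjoin _ h3 (by rw [map_zpow]; rfl)
  rw [map_zpow, Stage.pi_ft] at h4
  obtain ⟨J', rfl⟩ : ∃ J', J = J' + 1 := ⟨J - 1, by omega⟩
  rw [side_t_neg_pow] at h4
  exact one_ne_zero h4

theorem gt_zpow_ball {k : ℕ} {j : ℤ} (h : (gt F) ^ j ∈ Ball (SG (ga F) (gt F)) k) : j.natAbs ≤ k := by
  have key : ∀ (k : ℕ) (g : (GG F)), g ∈ Ball (SG (ga F) (gt F)) k →
      (Multiplicative.toAdd ((eta F) g)).natAbs ≤ k := by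
    intro k
    induction k with
    | zero =>
      intro g hg
      have : g = 1 := hg
      subst this
      simp
    | succ k ih =>
      rintro g ⟨x, hx, y, hy, rfl⟩
      have h1 := ih x hx
      simp only [SG, Set.mem_insert_iff, Set.mem_singleton_iff] at hy
      rw [map_mul, toAdd_mul]
      rcases hy with rfl | rfl | rfl | rfl | rfl
      · rw [map_one, toAdd_one]; omega
      · rw [eta_ga, toAdd_one]; omega
      · rw [map_inv, eta_ga, inv_one, toAdd_one]; omega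
      · rw [eta_gt, toAdd_ofAdd]; omega
      · rw [map_inv, eta_gt, toAdd_inv, toAdd_ofAdd]; omega
  have h1 := key k _ h
  rw [eta_zpow (eta F) eta_gt, toAdd_ofAdd] at h1
  exact h1

theorem gt_inj : Function.Injective (fun j : ℤ => (gt F) ^ j) := by
  intro i j h
  have h1 := congrArg (eta F) h
  simp only [eta_zpow (eta F) eta_gt] at h1
  exact Multiplicative.ofAdd.injective h1

theorem GG_infinite : Infinite (GG F) := Infinite.of_injective _ gt_inj

theorem SG_gen : Subgroup.closure (SG (ga F) (gt F)) = ⊤ := by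
  rw [eq_top_iff, ← gen]
  apply Subgroup.closure_mono
  rintro x (rfl | hx)
  · right; left; rfl
  · rw [Set.mem_singleton_iff] at hx
    subst hx
    right; right; right; left; rfl


end Pool.Agent.Y36.LG
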